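import Pool.Agent.helper31.Gor.Unb

set_option autoImplicit false

/-!
# MP_197ffd_nt, Q1 (Gordon), partial: the number of third rows which complete two given rows to a member of `S`
-/

namespace Pool.Agent.Results.MP_197ffd_nt.FibreSizes

open Pool.Agent.helper31.Gor

theorem result :
    (∀ r s : Fin 3 → ℤ, kap r s + KK r s ≠ 0 →
      (fib r s).Finite ∧ (fib r s).ncard ≤ 2 * ((kap r s + KK r s) / 2).natAbs.divisors.card) ∧
    ∀ N : ℕ, ∃ r s : Fin 3 → ℤ, kap r s + KK r s ≠ 0 ∧ N ≤ (fib r s).ncard :=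
  ⟨fun _ _ h => fib_finite h, unb⟩

end Pool.Agent.Results.MP_197ffd_nt.FibreSizes
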