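import Pool.Agent.helper31.Gor.Unb

set_option autoImplicit false

/-!
# MP_197ffd_nt, Q1 (Gordon), partial: the third row of a member of `S` in terms of the first two
-/

namespace Pool.Agent.Results.MP_197ffd_nt.ThirdRow

open Pool.Agent.helper31.Gor

theorem result (A : Matrix (Fin 3) (Fin 3) ℤ) (hA : ∀ i j, A i j ≠ -1 ∧ A i j ≠ 0 ∧ A i j ≠ 1) :
    A ∈ SG ↔ KK (A 0) (A 1) ≠ 0 ∧ ∃ u v : ℤ, 2 * u * v = kap (A 0) (A 1) + KK (A 0) (A 1) ∧
      ∀ j, KK (A 0) (A 1) * A 2 j = v * A 0 j + u * A 1 j - ww (A 0) (A 1) j :=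
  descr A hA

end Pool.Agent.Results.MP_197ffd_nt.ThirdRow
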